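import Pool.Agent.Y314.CT.Stm
import Pool.Agent.W861.AM.Mean

set_option autoImplicit false

/-!
Energy argument with an invariant mean (job CT-SEL).
-/

namespace Pool.Agent.Y98.CT

open Pool.Agent.Y314.CT Pool.Agent.W861.AM Filter Topology

/-! ### amenability of `NT t` -/

theorem comm_v {t : ℝ} (g : NT t) (hg : g ∈ commutator (NT t)) : g.v = 0 := by
  let f : NT t →* Multiplicative HV :=
    { toFun := fun g => Multiplicative.ofAdd g.v
      map_one' := rfl
      map_mul' := fun _ _ => rfl }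
  have h1 : g ∈ f.ker := Abelianization.commutator_subset_ker f hg
  exact Multiplicative.ofAdd.injective (MonoidHom.mem_ker.mp h1)

theorem am_NT (t : ℝ) : Am (NT t) := by
  refine Am.of_commutator (Am.of_commutator ?_)
  have h : (commutator (commutator (NT t)) : Subgroup (commutator (NT t))) ≤ ⊥ := by
    refine Subgroup.commutator_le.mpr ?_
    intro a _ b _
    rw [Subgroup.mem_bot, commutatorElement_eq_one_iff_mul_comm]
    apply Subtype.ext
    have ha := comm_v a.1 a.2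
    have hb := comm_v b.1 b.2
    refine ext' ?_ ?_
    · simp [ha, hb]
    · simp [ha, hb, om_zero_left, add_comm]
  have hs : Subsingleton (commutator (commutator (NT t)) : Subgroup (commutator (NT t))) := by
    refine ⟨fun a b => ?_⟩
    have ha := Subgroup.mem_bot.mp (h a.2)
    have hb := Subgroup.mem_bot.mp (h b.2)
    exact Subtype.ext (ha.trans hb.symm)
  exact Am.of_subsingleton

/-- a right invariant mean -/
theorem right_mean {G : Type} [Group G] (h : Am G) : ∃ m : (G → ℝ) → ℝ, IsMean m ∧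
    ∀ (g : G) (F : G → ℝ), Bd F → m (fun x => F (x * g)) = m F := by
  obtain ⟨μ, hμ, hi⟩ := h
  refine ⟨fun F => μ (fun x => F x⁻¹), ⟨?_, ?_, ?_, ?_⟩, ?_⟩
  · intro f g hf hg
    exact hμ.add _ _ (hf.comp _) (hg.comp _)
  · intro c f hf
    exact hμ.smul c _ (hf.comp _)
  · intro f hf hp
    exact hμ.nonneg _ (hf.comp _) (fun x => hp _)
  · exact hμ.one
  · intro g F hF
    have h1 := hi g⁻¹ (fun x => F x⁻¹) (hF.comp _)
    simp only
    rw [← h1]
    congr 1
    funext x
    rw [mul_inv_rev, inv_inv]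

/-! ### sums and squares -/

theorem bd_sq {α : Type} {f : α → ℝ} (hf : Bd f) : Bd (fun x => f x ^ 2) := by
  obtain ⟨C, hC⟩ := hf
  refine ⟨C ^ 2, fun x => ?_⟩
  rw [abs_pow]
  exact pow_le_pow_left₀ (abs_nonneg _) (hC x) 2

theorem mean_sum {α ι : Type} {μ : (α → ℝ) → ℝ} (h : IsMean μ) (s : Finset ι)
    (f : ι → α → ℝ) (hf : ∀ i ∈ s, Bd (f i)) :
    Bd (fun x => ∑ i ∈ s, f i x) ∧ μ (fun x => ∑ i ∈ s, f i x) = ∑ i ∈ s, μ (f i) := by
  classical
  induction s using Finset.induction_on with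
  | empty =>
    simp only [Finset.sum_empty]
    exact ⟨Bd.const 0, h.const 0⟩
  | insert i s his ih =>
    have h1 := hf i (Finset.mem_insert_self i s)
    have h2 := ih (fun j hj => hf j (Finset.mem_insert_of_mem hj))
    simp only [Finset.sum_insert his]
    refine ⟨h1.add h2.1, ?_⟩
    rw [h.add _ _ h1 h2.1, h2.2]

/-! ### the energy argument -/

theorem energy {G : Type} [Group G] {m : (G → ℝ) → ℝ} (hm : IsMean m)
    (hr : ∀ (g : G) (F : G → ℝ), Bd F → m (fun x => F (x * g)) = m F)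
    (f : G → ℝ) (hf : ∀ h, Bd (fun x => f (x * h) - f x)) (a : ℕ → G)
    (ha : ∀ k, a k * a k = a (k + 1)) :
    (∀ k, Bd (fun x => (f (x * a (k + 1)) - 2 * f (x * a k) + f x) ^ 2)) ∧
    Tendsto (fun k => m (fun x => (f (x * a (k + 1)) - 2 * f (x * a k) + f x) ^ 2) / 4 ^ k)
      atTop (𝓝 0) := by
  have hb : ∀ k, Bd (fun x => (f (x * a (k + 1)) - 2 * f (x * a k) + f x) ^ 2) := by
    intro k
    have h1 : Bd (fun x => (f (x * a (k + 1)) - f x) + (-2) * (f (x * a k) - f x)) :=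
      (hf _).add ((hf _).smul (-2))
    have h2 : (fun x => (f (x * a (k + 1)) - 2 * f (x * a k) + f x)) =
        (fun x => (f (x * a (k + 1)) - f x) + (-2) * (f (x * a k) - f x)) := by
      funext x
      ring
    have h3 : Bd (fun x => (f (x * a (k + 1)) - 2 * f (x * a k) + f x)) := by
      rw [h2]; exact h1
    exact bd_sq h3
  refine ⟨hb, ?_⟩
  set E : ℕ → ℝ := fun k => m (fun x => (f (x * a k) - f x) ^ 2) with hEdef
  set D : ℕ → ℝ := fun k => m (fun x => (f (x * a (k + 1)) - 2 * f (x * a k) + f x) ^ 2)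
    with hDdef
  have hE0 : ∀ k, 0 ≤ E k := fun k => hm.nonneg _ (bd_sq (hf _)) (fun x => sq_nonneg _)
  have hD0 : ∀ k, 0 ≤ D k := fun k => hm.nonneg _ (hb k) (fun x => sq_nonneg _)
  have hrec : ∀ k, E (k + 1) + D k = 4 * E k := by
    intro k
    have h1 : m (fun x => (f (x * a k * a k) - f (x * a k)) ^ 2) = E k :=
      hr (a k) (fun x => (f (x * a k) - f x) ^ 2) (bd_sq (hf _))
    have hbu : Bd (fun x => (f (x * a k * a k) - f (x * a k)) ^ 2) :=
      (bd_sq (hf (a k))).comp (fun x => x * a k)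
    have hbw : Bd (fun x => (f (x * a k) - f x) ^ 2) := bd_sq (hf _)
    have h2 : m (fun x => 2 * (f (x * a k * a k) - f (x * a k)) ^ 2 +
        2 * (f (x * a k) - f x) ^ 2) = 4 * E k := by
      rw [hm.add _ _ (hbu.smul 2) (hbw.smul 2), hm.smul 2 _ hbu, hm.smul 2 _ hbw, h1]
      ring
    have h3 : m (fun x => (f (x * a (k + 1)) - f x) ^ 2 +
        (f (x * a (k + 1)) - 2 * f (x * a k) + f x) ^ 2) = E (k + 1) + D k := by
      rw [hm.add _ _ (bd_sq (hf _)) (hb k)]
    rw [← h3, ← h2]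
    congr 1
    funext x
    rw [mul_assoc, ha k]
    ring
  have hsum : ∀ n, ∑ k ∈ Finset.range n, D k / 4 ^ (k + 1) = E 0 - E n / 4 ^ n := by
    intro n
    induction n with
    | zero => simp
    | succ n ih =>
      rw [Finset.sum_range_succ, ih]
      have h1 := hrec n
      have h4 : (4 : ℝ) ^ n ≠ 0 := by positivity
      have h2 : D n = 4 * E n - E (n + 1) := by linarith
      rw [h2, pow_succ]
      field_simp
      ring
  have hs : Summable (fun k => D k / 4 ^ (k + 1)) := by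
    refine summable_of_sum_range_le (c := E 0) (fun k => div_nonneg (hD0 k) (by positivity)) ?_
    intro n
    rw [hsum n]
    have : 0 ≤ E n / 4 ^ n := div_nonneg (hE0 n) (by positivity)
    linarith
  have ht := hs.tendsto_atTop_zero.const_mul 4
  rw [mul_zero] at ht
  have ht2 : Tendsto (fun k => D k / 4 ^ k) atTop (𝓝 0) := by
    refine ht.congr (fun k => ?_)
    rw [pow_succ]
    have h4 : (4 : ℝ) ^ k ≠ 0 := by positivity
    field_simp
  exact ht2

/-! ### coordinates -/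

/-- The eight coordinates. -/
def co (c : Fin 4 × Bool) (v : HV) : ℝ := if c.2 then (v c.1).1 else (v c.1).2

theorem abs_co_le (c : Fin 4 × Bool) (v : HV) : |co c v| ≤ ‖v‖ := by
  unfold co
  split
  · exact (norm_fst_le (v c.1)).trans (norm_le_pi_norm v c.1)
  · exact (norm_snd_le (v c.1)).trans (norm_le_pi_norm v c.1)

theorem co_sub (c : Fin 4 × Bool) (v w : HV) : co c (v - w) = co c v - co c w := by
  unfold co
  split <;> rfl

theorem co_add (c : Fin 4 × Bool) (v w : HV) : co c (v + w) = co c v + co c w := by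
  unfold co
  split <;> rfl

theorem co_smul (c : Fin 4 × Bool) (r : ℝ) (v : HV) : co c (r • v) = r * co c v := by
  unfold co
  split <;> rfl

theorem norm_le_of_co {v : HV} {r : ℝ} (hr : 0 ≤ r) (h : ∀ c, |co c v| ≤ r) : ‖v‖ ≤ r := by
  rw [pi_norm_le_iff_of_nonneg hr]
  intro i
  rw [Prod.norm_def]
  exact max_le (by simpa [co] using h (i, true)) (by simpa [co] using h (i, false))

/-- SEL: energy argument with an invariant mean -/
theorem t_SEL : S_SEL := by
  classical
  intro t s φ K hK hφ F ε hε N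
  obtain ⟨m, hm, hr⟩ := right_mean (am_NT t)
  set f : Fin 4 × Bool → NT t → ℝ := fun c x => co c (φ x).v with hfdef
  have hf : ∀ c h, Bd (fun x => f c (x * h) - f c x) := by
    intro c h
    refine ⟨K * nn h + K, fun x => ?_⟩
    have h1 : |f c (x * h) - f c x| ≤ ‖(φ (x * h)).v - (φ x).v‖ := by
      rw [hfdef]
      simp only
      rw [← co_sub]
      exact abs_co_le _ _
    have h2 : dd (x * h) x = nn h := by
      rw [dd_comm]
      unfold dd
      rw [inv_mul_cancel_left]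
    have h3 := hφ (x * h) x
    rw [h2] at h3
    exact (h1.trans (norm_sub_v_le _ _)).trans h3
  set a : Fin 4 × Bool → ℕ → NT t := fun j k => ge t j.1 j.2 (2 ^ k) with hadef
  have ha : ∀ j k, a j k * a j k = a j (k + 1) := by
    intro j k
    rw [hadef]
    simp only
    rw [ge_mul]
    congr 1
    ring
  have hen := fun (c j : Fin 4 × Bool) => energy hm hr (f c) (hf c) (a j) (ha j)
  -- the second differences
  set Δ : Fin 4 × Bool → Fin 4 × Bool → ℕ → NT t → ℝ := fun c j k x =>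
    (f c (x * a j (k + 1)) - 2 * f c (x * a j k) + f c x) ^ 2 with hΔ
  have hΔb : ∀ c j k, Bd (Δ c j k) := fun c j k => (hen c j).1 k
  have hΔt : ∀ c j, Tendsto (fun k => m (Δ c j k) / 4 ^ k) atTop (𝓝 0) :=
    fun c j => (hen c j).2
  set T : Finset (NT t × ((Fin 4 × Bool) × (Fin 4 × Bool))) :=
    F ×ˢ (Finset.univ ×ˢ Finset.univ) with hT
  have hQ := fun k => mean_sum hm T (fun p x => Δ p.2.1 p.2.2 k (x * dil (2 ^ k) p.1))
    (fun p _ => (hΔb p.2.1 p.2.2 k).comp _)
  have hQm : ∀ k, m (fun x => ∑ p ∈ T, Δ p.2.1 p.2.2 k (x * dil (2 ^ k) p.1)) =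
      ∑ p ∈ T, m (Δ p.2.1 p.2.2 k) := by
    intro k
    rw [(hQ k).2]
    refine Finset.sum_congr rfl (fun p _ => ?_)
    exact hr (dil (2 ^ k) p.1) (Δ p.2.1 p.2.2 k) (hΔb _ _ _)
  have hlim : Tendsto (fun k => m (fun x => ∑ p ∈ T, Δ p.2.1 p.2.2 k (x * dil (2 ^ k) p.1)) /
      4 ^ k) atTop (𝓝 0) := by
    have h1 : Tendsto (fun k => ∑ p ∈ T, m (Δ p.2.1 p.2.2 k) / 4 ^ k) atTop
        (𝓝 (∑ _p ∈ T, (0 : ℝ))) := tendsto_finsetSum _ (fun p _ => hΔt _ _)
    rw [Finset.sum_const_zero] at h1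
    refine h1.congr (fun k => ?_)
    rw [hQm k, Finset.sum_div]
  have hev := (hlim.eventually (gt_mem_nhds (show (0 : ℝ) < ε ^ 2 by positivity))).and
    (eventually_ge_atTop N)
  obtain ⟨k, hk1, hk2⟩ := hev.exists
  refine ⟨k, hk2, ?_⟩
  rw [div_lt_iff₀ (by positivity)] at hk1
  have hx : ∃ x, (∑ p ∈ T, Δ p.2.1 p.2.2 k (x * dil (2 ^ k) p.1)) < ε ^ 2 * 4 ^ k := by
    by_contra hcon
    simp only [not_exists, not_lt] at hcon
    have := hm.ge_of_ge (hQ k).1 hcon
    linarith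
  obtain ⟨x, hx⟩ := hx
  refine ⟨x, ?_⟩
  intro h hh i b
  refine norm_le_of_co (by positivity) (fun c => ?_)
  have h1 : Δ c (i, b) k (x * dil (2 ^ k) h) < ε ^ 2 * 4 ^ k := by
    refine lt_of_le_of_lt ?_ hx
    have h2 : (h, (c, ((i, b) : Fin 4 × Bool))) ∈ T := by
      simp [hT, hh]
    exact Finset.single_le_sum (f := fun p : NT t × ((Fin 4 × Bool) × (Fin 4 × Bool)) =>
      Δ p.2.1 p.2.2 k (x * dil (2 ^ k) p.1)) (fun p _ => sq_nonneg _) h2
  have h3 : x * dil (2 ^ k) (h * ge t i b 2) = x * dil (2 ^ k) h * a (i, b) (k + 1) := by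
    rw [dil_mul, dil_ge, ← mul_assoc, hadef]
    simp only
    rw [pow_succ]
  have h4 : x * dil (2 ^ k) (h * ge t i b 1) = x * dil (2 ^ k) h * a (i, b) k := by
    rw [dil_mul, dil_ge, ← mul_assoc, hadef]
    simp only
    rw [mul_one]
  rw [h3, h4, co_sub, co_add, co_smul]
  have h5 : (f c (x * dil (2 ^ k) h * a (i, b) (k + 1)) -
      2 * f c (x * dil (2 ^ k) h * a (i, b) k) + f c (x * dil (2 ^ k) h)) ^ 2 <
      (ε * 2 ^ k) ^ 2 := by
    have h6 : (ε * 2 ^ k) ^ 2 = ε ^ 2 * 4 ^ k := by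
      rw [mul_pow, ← pow_mul, mul_comm k 2, pow_mul]
      norm_num
    rw [h6]
    exact h1
  have h7 := abs_lt_of_sq_lt_sq h5 (by positivity)
  have h8 : co c (φ (x * dil (2 ^ k) h * a (i, b) (k + 1))).v + co c (φ (x * dil (2 ^ k) h)).v -
      2 * co c (φ (x * dil (2 ^ k) h * a (i, b) k)).v =
      (f c (x * dil (2 ^ k) h * a (i, b) (k + 1)) -
      2 * f c (x * dil (2 ^ k) h * a (i, b) k) + f c (x * dil (2 ^ k) h)) := by
    rw [hfdef]
    simp only
    ring
  rw [h8]
  exact h7.le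

end Pool.Agent.Y98.CT
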